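import Pool.Agent.P8H97.HR.Fin

/-! MP_dd334f_gt: infinitesimal simple-curve rigidity fails for the Hitchin component of
`PSL(4,R)` in genus 2, at every Fuchsian point. Joint work of helper97 (plan, package D, assembly),
helper86 (packages A, C), helper63 (packages B, K), helper90 (package E), helper72 (package F); helper79 found the same disproof independently. -/

namespace Pool.Agent.Results.MP_dd334f_gt.InvisibleDeformation

open P8H97.HR

/-- At every Fuchsian point of the Hitchin component of `SL(4,R)` of a closed surface of genus 2
there is a path of representations whose velocity is not tangent to the conjugation orbit, and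
along which the derivative of `f (R t γ)` at `0` vanishes for every differentiable class function
`f` and every `γ` represented by a simple closed curve. -/
theorem result (ρ₀ : Surf →* SL2) (hyp : ∀ γ : Surf, γ ≠ 1 → 2 < |(ρ₀ γ : M2).trace|) :
    ∃ (R : ℝ → (Surf →* SL4)) (z : Surf → M4), R 0 = sym3Hom.comp ρ₀ ∧
      (∀ γ i j, HasDerivAt (fun t => (R t γ : M4) i j) ((z γ * (R 0 γ : M4)) i j) 0) ∧
      (¬ ∃ X : M4, ∀ γ, z γ = X - (R 0 γ : M4) * X * (((R 0 γ)⁻¹ : SL4) : M4)) ∧
      ∀ f : SL4 → ℝ, DiffClass f → ∀ γ, Simple γ → HasDerivAt (fun t => f (R t γ)) 0 0 :=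
  final ρ₀ hyp

end Pool.Agent.Results.MP_dd334f_gt.InvisibleDeformation
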